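import Pool.Agent.Y463.KN.Basic

/-!
# Random words in a box of a knotoid diagram: the normalised bracket modulo `N`, and its number of terms

Diagrams (starting library `Pool.Agent.H891R2.Jones.Diagram`): `Diagram P` (oriented diagrams with marked
points `P`, planar or not; `Diagram.loops`, the number of components of a state, counts circles and
intervals), `Diagram.fPoly` (the normalised bracket `(-A^{-3})^{w(D)} ⟨D⟩`), `Outer m` (the part of an
oriented diagram outside a box through which `m` strands run, with arbitrary directions `Outer.up`),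
`Outer.close` (fills the rest of the box with vertical strands).  `IsKnotoid D` (starting library
`Pool.Agent.H832R3.TW.E`): the pieces of `D` form one oriented interval, running from a marked point `tail`
to a different marked point `head`, and (possibly) oriented closed curves.  `Pool.Agent.W639.RB.Defs`
(starting library): `Letter m = Bool × Fin (m - 1)` (the letters `σ_i^{±1}`), `diagram O w` (the diagram
obtained by drawing the word `w : Fin n → Letter m` in the box of `O`), `perm w` (the permutation of the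
strands).

`Pool.Agent.Y463.MP.Defs`: `nonmult N f` (the number of the coefficients of the Laurent polynomial `f` which
are not divisible by `N`), `Pr p n E` (the probability of the property `E` for a word of `n` independent
letters with the distribution `p`), `osize O`, `dsize D` (the number of crossings and marked points of an
outside and of a diagram).

The proof is the one of `MP_42db45_gt.RandomBraidsModN`; the brackets count circles and intervals, so that the
endpoints of the knotoid may be anywhere outside the box.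
-/

set_option autoImplicit false

namespace Pool.Agent.Results.MP_79b4ff_gt.RandomKnotoidsModN

open Finset LaurentPolynomial Pool.Agent.H891R2.Jones Pool.Agent.W639.RB Pool.Agent.Y463.MP
  Pool.Agent.H832R3.TW Pool.Agent.Y463.KN

open Classical in
/-- **Random words in a box of a knotoid diagram.**  Let `m ≥ 3`.

* Let `O` be the part of a diagram of a knotoid outside a box through which `m` strands run.  If the
  permutation of the word `w` preserves the directions of the strands, then the diagram with `w` in the box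
  is a diagram of a knotoid.
* Let `p > 0` be a probability vector on the letters `σ_i^{±1}` of the braid group on `m` strands.  There is
  `r < 1` such that:
  - there is `C` such that for all `N ≥ 2`, all outsides `O` of a box with `m` strands, all Laurent
    polynomials `g` (for instance `g = 1`, the normalised bracket of the trivial knotoid) and all `n`, the
    normalised bracket of the diagram with a random word of length `n` in the box is congruent to `g` modulo
    `N` with probability at most `C r^n`;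
  - for all `N ≥ 2` and `κ` there are `δ > 0` and `C` such that for all `O` with at most `κ (n + 1)`
    crossings and marked points, the normalised bracket has at most `δ n` coefficients not divisible by `N`
    with probability at most `C r^n`;
  - for all `N ≥ 2` and `κ` there are `ε > 0` and `C` such that for these `O`, with probability at most
    `C r^n` there is a diagram (of a knot, of a knotoid, planar or not) with at most `ε n` crossings and
    marked points whose normalised bracket is congruent to the one of the random diagram modulo `N`.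
* There are `l0`, `c > 0` and `r < 1` such that the following holds for every permutation `τ` of the strands
  and all `n ≥ l0` with `(-1)^n = sign τ`, for instance for the `τ` which preserve the directions of the
  strands of a knotoid diagram: at least `c (2m-2)^n` of the `(2m-2)^n` words of length `n` have the
  permutation `τ`, and the same three bounds hold for the proportion among these words (uniform
  distribution). -/
theorem result (m : ℕ) (hm : 3 ≤ m) :
    (∀ (O : Outer m), IsKnotoid O.close → ∀ (n : ℕ) (w : Fin n → Letter m),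
      (∀ j, O.up (perm w j) = O.up j) → IsKnotoid (diagram O w)) ∧
    (∀ p : Letter m → ℝ, (∀ x, 0 < p x) → ∑ x, p x = 1 → ∃ r : ℝ, 0 < r ∧ r < 1 ∧
      (∃ C : ℝ, ∀ N : ℕ, 2 ≤ N → ∀ (O : Outer m) (g : ℤ[T;T⁻¹]) (n : ℕ),
        Pr p n (fun w => (N : ℤ[T;T⁻¹]) ∣ (diagram O w).fPoly - g) ≤ C * r ^ n) ∧
      (∀ N : ℕ, 2 ≤ N → ∀ κ : ℝ, ∃ δ : ℝ, 0 < δ ∧ ∃ C : ℝ, ∀ (O : Outer m) (n : ℕ),
        (osize O : ℝ) ≤ κ * (n + 1) →
        Pr p n (fun w => (nonmult N (diagram O w).fPoly : ℝ) ≤ δ * n) ≤ C * r ^ n) ∧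
      (∀ N : ℕ, 2 ≤ N → ∀ κ : ℝ, ∃ ε : ℝ, 0 < ε ∧ ∃ C : ℝ, ∀ (O : Outer m) (n : ℕ),
        (osize O : ℝ) ≤ κ * (n + 1) →
        Pr p n (fun w => ∃ (P : Type) (_ : Finite P) (D : Diagram P), (dsize D : ℝ) ≤ ε * n ∧
          (N : ℤ[T;T⁻¹]) ∣ (diagram O w).fPoly - D.fPoly) ≤ C * r ^ n)) ∧
    (∃ (r c : ℝ) (l0 : ℕ), 0 < r ∧ r < 1 ∧ 0 < c ∧
      (∀ (τ : Equiv.Perm (Fin m)) (n : ℕ), l0 ≤ n → Equiv.Perm.sign τ = (-1) ^ n →
        c * ((2 * (m - 1) : ℕ) : ℝ) ^ n ≤
          (univ.filter (fun w : Fin n → Letter m => perm w = τ)).card) ∧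
      (∃ C : ℝ, ∀ N : ℕ, 2 ≤ N → ∀ (O : Outer m) (g : ℤ[T;T⁻¹]) (τ : Equiv.Perm (Fin m)) (n : ℕ),
        l0 ≤ n → Equiv.Perm.sign τ = (-1) ^ n →
        ((univ.filter (fun w : Fin n → Letter m =>
          perm w = τ ∧ (N : ℤ[T;T⁻¹]) ∣ (diagram O w).fPoly - g)).card : ℝ) ≤
            C * r ^ n * (univ.filter (fun w : Fin n → Letter m => perm w = τ)).card) ∧
      (∀ N : ℕ, 2 ≤ N → ∀ κ : ℝ, ∃ δ : ℝ, 0 < δ ∧ ∃ C : ℝ, ∀ (O : Outer m)
        (τ : Equiv.Perm (Fin m)) (n : ℕ),
        l0 ≤ n → Equiv.Perm.sign τ = (-1) ^ n → (osize O : ℝ) ≤ κ * (n + 1) →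
        ((univ.filter (fun w : Fin n → Letter m =>
          perm w = τ ∧ (nonmult N (diagram O w).fPoly : ℝ) ≤ δ * n)).card : ℝ) ≤
            C * r ^ n * (univ.filter (fun w : Fin n → Letter m => perm w = τ)).card) ∧
      (∀ N : ℕ, 2 ≤ N → ∀ κ : ℝ, ∃ ε : ℝ, 0 < ε ∧ ∃ C : ℝ, ∀ (O : Outer m)
        (τ : Equiv.Perm (Fin m)) (n : ℕ),
        l0 ≤ n → Equiv.Perm.sign τ = (-1) ^ n → (osize O : ℝ) ≤ κ * (n + 1) →
        ((univ.filter (fun w : Fin n → Letter m =>
          perm w = τ ∧ ∃ (P : Type) (_ : Finite P) (D : Diagram P), (dsize D : ℝ) ≤ ε * n ∧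
            (N : ℤ[T;T⁻¹]) ∣ (diagram O w).fPoly - D.fPoly)).card : ℝ) ≤
              C * r ^ n * (univ.filter (fun w : Fin n → Letter m => perm w = τ)).card)) := by
  have key : ∀ p : Letter m → ℝ, (∀ x, 0 < p x) → ∑ x, p x = 1 → ∃ r : ℝ, 0 < r ∧ r < 1 ∧
      (∃ C : ℝ, ∀ N : ℕ, 2 ≤ N → ∀ (O : Outer m) (g : ℤ[T;T⁻¹]) (n : ℕ),
        Pr p n (fun w => (N : ℤ[T;T⁻¹]) ∣ (diagram O w).fPoly - g) ≤ C * r ^ n) ∧
      (∀ N : ℕ, 2 ≤ N → ∀ κ : ℝ, ∃ δ : ℝ, 0 < δ ∧ ∃ C : ℝ, ∀ (O : Outer m) (n : ℕ),
        (osize O : ℝ) ≤ κ * (n + 1) →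
        Pr p n (fun w => (nonmult N (diagram O w).fPoly : ℝ) ≤ δ * n) ≤ C * r ^ n) ∧
      (∀ N : ℕ, 2 ≤ N → ∀ κ : ℝ, ∃ ε : ℝ, 0 < ε ∧ ∃ C : ℝ, ∀ (O : Outer m) (n : ℕ),
        (osize O : ℝ) ≤ κ * (n + 1) →
        Pr p n (fun w => ∃ (P : Type) (_ : Finite P) (D : Diagram P), (dsize D : ℝ) ≤ ε * n ∧
          (N : ℤ[T;T⁻¹]) ∣ (diagram O w).fPoly - D.fPoly) ≤ C * r ^ n) := by
    intro p hp hs
    obtain ⟨r, hr0, hr1, h1, h2⟩ := final hm p hp hs
    refine ⟨r, hr0, hr1, h1, h2, ?_⟩
    intro N hN κ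
    obtain ⟨δ, hδ, C, hC⟩ := h2 N hN κ
    exact short p hp hs r hr0 hr1 N κ δ hδ C hC
  refine ⟨fun O hO n w h => knotoid_diagram O hO w (up_perm O w h), key, ?_⟩
  have hD0 : (0:ℝ) < ((2 * (m - 1) : ℕ) : ℝ) := by
    have : 0 < 2 * (m - 1) := by omega
    exact_mod_cast this
  obtain ⟨r, hr0, hr1, ⟨C1, h1⟩, h2, h3⟩ := key (fun _ => 1 / ((2 * (m - 1) : ℕ) : ℝ))
    (fun _ => by positivity) (by
      rw [Finset.sum_const, Finset.card_univ, Pool.Agent.W705.JR.card_letter, nsmul_eq_mul]
      field_simp)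
  obtain ⟨l1, c, hc, hk⟩ := permsE (m := m) (by omega) r hr0
  obtain ⟨l2, hmany⟩ := many_perm (m := m) (by omega)
  have hpow : ∀ n : ℕ, 0 ≤ r ^ n := fun n => by positivity
  refine ⟨r, 1 / ((2 * (m - 1) : ℕ) : ℝ) ^ l2, max l1 l2, hr0, hr1, by positivity, ?_,
    ⟨c * max C1 0, ?_⟩, ?_, ?_⟩
  · intro τ n hn hpar
    have h4 := hmany τ n ((le_max_right _ _).trans hn) hpar
    have h5 : (((2 * (m - 1) : ℕ) : ℝ)) ^ n ≤ ((2 * (m - 1) : ℕ) : ℝ) ^ l2 *
        ((univ.filter (fun w : Fin n → Letter m => perm w = τ)).card : ℝ) := by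
      exact_mod_cast h4
    rw [div_mul_eq_mul_div, one_mul, div_le_iff₀ (by positivity)]
    calc _ ≤ _ := h5
      _ = _ := mul_comm _ _
  · intro N hN O g τ n hn hpar
    exact hk τ n (max C1 0) _ ((le_max_left _ _).trans hn) hpar (le_max_right _ _) ((h1 N hN O g n).trans
      (mul_le_mul_of_nonneg_right (le_max_left _ _) (hpow n)))
  · intro N hN κ
    obtain ⟨δ, hδ, C, hC⟩ := h2 N hN κ
    refine ⟨δ, hδ, c * max C 0, ?_⟩
    intro O τ n hn hpar hO
    exact hk τ n (max C 0) _ ((le_max_left _ _).trans hn) hpar (le_max_right _ _) ((hC O n hO).trans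
      (mul_le_mul_of_nonneg_right (le_max_left _ _) (hpow n)))
  · intro N hN κ
    obtain ⟨ε, hε, C, hC⟩ := h3 N hN κ
    refine ⟨ε, hε, c * max C 0, ?_⟩
    intro O τ n hn hpar hO
    exact hk τ n (max C 0) _ ((le_max_left _ _).trans hn) hpar (le_max_right _ _) ((hC O n hO).trans
      (mul_le_mul_of_nonneg_right (le_max_left _ _) (hpow n)))

end Pool.Agent.Results.MP_79b4ff_gt.RandomKnotoidsModN
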