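import Pool.Agent.H891R2.RF.Fin
import Pool.Agent.H832R3.TW.E

/-!
# Rational fillings of a box in a knotoid diagram with trivial normalised bracket

`Pool.Agent.H891R2.RF.Defs`, `Pool.Agent.H891R2.MT.Defs` and `Pool.Agent.H891R2.Jones.Diagram` (starting
library) contain the definitions:

* `UDiagram`, `Diagram`: unoriented / oriented diagrams given by marked points, arcs (pieces without
  crossings) and crossings; planarity is not required; the components of a state are circles and intervals;
  `Diagram.fPoly`: the normalised bracket;
* `Orients D U`: `D` is the unoriented diagram `U` with directions;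
* `Outer4`: the part of a diagram outside of a box which the diagram meets in four points;
* `Tangle`: diagrams of rational tangles, given by a word of crossings, which are added at the right
  side or at the bottom of the rest, the innermost part being two horizontal strands (the tangle `0`)
  or two vertical strands (the tangle `∞`); `W.fill R`: the box of `W` is filled with `R`;
* `slope R ∈ ℚ ∪ {∞}`: Conway's fraction of `R`; `dist R R' = |p q' - p' q|` for the slopes `p/q`,
  `p'/q'` of `R`, `R'`;
* `JonesRational W`: there are a word `r` and one unit `± A^m` such that the bracket of `W.fill R` is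
  this unit times the bracket of the two-bridge diagram `Outer4.triv.fill (r R)`, for all `R`.

`IsKnotoid D` (starting library `Pool.Agent.H832R3.TW.E`): the pieces of `D` form one oriented interval,
running from a marked point `tail` to a different marked point `head`, and (possibly) oriented closed curves.
-/

set_option autoImplicit false

namespace Pool.Agent.Results.MP_79b4ff_gt.RationalFillingsKnotoids

open Pool.Agent.H891R2.RF Pool.Agent.H891R2.MT Pool.Agent.H891R2.Jones
open Pool.Agent.H832R3.TW (IsKnotoid)

section degree

variable {P : Type} [DecidableEq P]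

/-- the number of ends of the arc `x` at the marked point `p` -/
def arcDeg (p : P) (x : P × P) : ℕ := (if x.1 = p then 1 else 0) + (if x.2 = p then 1 else 0)

/-- the number of ends of the two strands of the crossing `x` at the marked point `p` -/
def crossDeg (p : P) (x : P × P × P × P) : ℕ :=
  (if x.1 = p then 1 else 0) + (if x.2.1 = p then 1 else 0) +
    ((if x.2.2.1 = p then 1 else 0) + (if x.2.2.2 = p then 1 else 0))

/-- the number of ends of arcs and strands at the marked point `p` -/
def deg (arcs : List (P × P)) (crossings : List (P × P × P × P)) (p : P) : ℕ :=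
  (arcs.map (arcDeg p)).sum + (crossings.map (crossDeg p)).sum

/-- The unoriented diagram `U` is a diagram of a (multi-)knotoid: exactly two marked points are the end of
one piece of the diagram only, and all others of two pieces, so that the pieces form one interval and closed
curves. -/
def UKnotoid (U : UDiagram P) : Prop :=
  ∃ a b : P, a ≠ b ∧ ∀ p, deg U.arcs U.crossings p = if p = a ∨ p = b then 1 else 2

end degree

/-- With suitable directions `U` is a diagram of a (multi-)knotoid whose normalised bracket is `1`. -/
def KTrivial {P : Type} [DecidableEq P] (U : UDiagram P) : Prop :=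
  ∃ D : Diagram P, Orients D U ∧ IsKnotoid D ∧ D.fPoly = 1

theorem KTrivial.jones {P : Type} [DecidableEq P] {U : UDiagram P} (h : KTrivial U) : JonesTrivial U := by
  obtain ⟨D, hD, _, hf⟩ := h
  exact ⟨D, hD, hf⟩

/-- the degree of a marked point outside the box; the corners of the box count -/
def odeg (W : Outer4) (p : W.P) : ℕ :=
  deg W.arcs W.crossings p + ((if W.corner false false = p then 1 else 0) +
    (if W.corner false true = p then 1 else 0) + ((if W.corner true false = p then 1 else 0) +
    (if W.corner true true = p then 1 else 0)))

theorem deg_close (W : Outer4) (v : Bool) (p : W.P) :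
    deg (W.close v).arcs (W.close v).crossings p = odeg W p := by
  cases v
  · simp only [Outer4.close, deg, odeg, List.map_append, List.sum_append, Bool.false_eq_true, if_false,
      List.map_cons, List.map_nil, List.sum_cons, List.sum_nil, arcDeg]
    omega
  · simp only [Outer4.close, deg, odeg, List.map_append, List.sum_append, if_true,
      List.map_cons, List.map_nil, List.sum_cons, List.sum_nil, arcDeg]
    omega

theorem arcs_inl {P Q : Type} [DecidableEq P] [DecidableEq Q] (L : List (P × P)) (p : P) :
    ((L.map (Prod.map Sum.inl Sum.inl)).map (arcDeg (Sum.inl p : P ⊕ Q))).sum =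
      (L.map (arcDeg p)).sum := by
  rw [List.map_map]
  congr 1
  apply List.map_congr_left
  intro x _
  simp [arcDeg]

theorem arcs_inr {P Q : Type} [DecidableEq P] [DecidableEq Q] (L : List (P × P)) (q : Q) :
    ((L.map (Prod.map Sum.inl Sum.inl)).map (arcDeg (Sum.inr q : P ⊕ Q))).sum = 0 := by
  rw [List.map_map]
  apply List.sum_eq_zero
  intro n hn
  rw [List.mem_map] at hn
  obtain ⟨x, _, rfl⟩ := hn
  simp [arcDeg]

theorem cross_inl {P Q : Type} [DecidableEq P] [DecidableEq Q] (L : List (P × P × P × P)) (p : P) :
    ((L.map (Prod.map Sum.inl (Prod.map Sum.inl (Prod.map Sum.inl Sum.inl)))).map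
      (crossDeg (Sum.inl p : P ⊕ Q))).sum = (L.map (crossDeg p)).sum := by
  rw [List.map_map]
  congr 1
  apply List.map_congr_left
  intro x _
  simp [crossDeg]

theorem cross_inr {P Q : Type} [DecidableEq P] [DecidableEq Q] (L : List (P × P × P × P)) (q : Q) :
    ((L.map (Prod.map Sum.inl (Prod.map Sum.inl (Prod.map Sum.inl Sum.inl)))).map
      (crossDeg (Sum.inr q : P ⊕ Q))).sum = 0 := by
  rw [List.map_map]
  apply List.sum_eq_zero
  intro n hn
  rw [List.mem_map] at hn
  obtain ⟨x, _, rfl⟩ := hn
  simp [crossDeg]

/-- the outside with one more crossing, with explicit instances -/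
theorem odeg_push_inl (W : Outer4) (side s : Bool) (p : W.P) :
    odeg (W.push side s) (Sum.inl p) = odeg W p := by
  have h1 : odeg (W.push side s) (Sum.inl p) =
      ((W.arcs.map (Prod.map Sum.inl Sum.inl) ++
        (if side then [(Sum.inl (W.corner false true), Sum.inr (false, true)),
          (Sum.inl (W.corner true true), Sum.inr (true, true))]
        else [(Sum.inl (W.corner false false), Sum.inr (false, false)),
          (Sum.inl (W.corner false true), Sum.inr (false, true))])).map
          (arcDeg (Sum.inl p : W.P ⊕ (Bool × Bool)))).sum +
      ((W.crossings.map (Prod.map Sum.inl (Prod.map Sum.inl (Prod.map Sum.inl Sum.inl))) ++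
        [if s then (Sum.inr (false, false), Sum.inr (false, true), Sum.inr (true, true),
            Sum.inr (true, false))
          else (Sum.inr (false, true), Sum.inr (true, true), Sum.inr (true, false),
            Sum.inr (false, false))]).map
        (crossDeg (Sum.inl p : W.P ⊕ (Bool × Bool)))).sum +
      ((if (W.push side s).corner false false = Sum.inl p then 1 else 0) +
      (if (W.push side s).corner false true = Sum.inl p then 1 else 0) +
      ((if (W.push side s).corner true false = Sum.inl p then 1 else 0) +
      (if (W.push side s).corner true true = Sum.inl p then 1 else 0))) := rfl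
  rw [h1, List.map_append, List.sum_append, List.map_append, List.sum_append, arcs_inl, cross_inl]
  unfold odeg deg
  cases side <;> cases s <;> simp [Outer4.push, arcDeg, crossDeg] <;> omega

theorem odeg_push_inr (W : Outer4) (side s : Bool) (q : Bool × Bool) :
    odeg (W.push side s) (Sum.inr q) = 2 := by
  have h1 : odeg (W.push side s) (Sum.inr q) =
      ((W.arcs.map (Prod.map Sum.inl Sum.inl) ++
        (if side then [(Sum.inl (W.corner false true), Sum.inr (false, true)),
          (Sum.inl (W.corner true true), Sum.inr (true, true))]
        else [(Sum.inl (W.corner false false), Sum.inr (false, false)),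
          (Sum.inl (W.corner false true), Sum.inr (false, true))])).map
          (arcDeg (Sum.inr q : W.P ⊕ (Bool × Bool)))).sum +
      ((W.crossings.map (Prod.map Sum.inl (Prod.map Sum.inl (Prod.map Sum.inl Sum.inl))) ++
        [if s then (Sum.inr (false, false), Sum.inr (false, true), Sum.inr (true, true),
            Sum.inr (true, false))
          else (Sum.inr (false, true), Sum.inr (true, true), Sum.inr (true, false),
            Sum.inr (false, false))]).map
        (crossDeg (Sum.inr q : W.P ⊕ (Bool × Bool)))).sum +
      ((if (W.push side s).corner false false = Sum.inr q then 1 else 0) +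
      (if (W.push side s).corner false true = Sum.inr q then 1 else 0) +
      ((if (W.push side s).corner true false = Sum.inr q then 1 else 0) +
      (if (W.push side s).corner true true = Sum.inr q then 1 else 0))) := rfl
  rw [h1, List.map_append, List.sum_append, List.map_append, List.sum_append, arcs_inr, cross_inr]
  obtain ⟨t, r⟩ := q
  cases side <;> cases s <;> cases t <;> cases r <;> simp [Outer4.push, arcDeg, crossDeg]

/-- a function with the value `1` at exactly two places and `2` elsewhere -/
def TwoEnds {P : Type} [DecidableEq P] (f : P → ℕ) : Prop :=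
  ∃ a b : P, a ≠ b ∧ ∀ p, f p = if p = a ∨ p = b then 1 else 2

theorem twoEnds_sum {P Q : Type} [DecidableEq P] [DecidableEq Q] (i : DecidableEq (P ⊕ Q))
    (f : P ⊕ Q → ℕ) (hf : ∀ q, f (Sum.inr q) = 2) :
    @TwoEnds (P ⊕ Q) i f ↔ TwoEnds (fun p => f (Sum.inl p)) := by
  constructor
  · rintro ⟨a, b, hab, h⟩
    rcases a with a | a
    · rcases b with b | b
      · refine ⟨a, b, fun h => hab (by rw [h]), fun p => ?_⟩
        show f (Sum.inl p) = _
        rw [h (Sum.inl p)]
        by_cases h1 : p = a ∨ p = b
        · rw [if_pos h1, if_pos]
          rcases h1 with rfl | rfl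
          · exact Or.inl rfl
          · exact Or.inr rfl
        · rw [if_neg h1, if_neg]
          rintro (h2 | h2)
          · exact h1 (Or.inl (Sum.inl.inj h2))
          · exact h1 (Or.inr (Sum.inl.inj h2))
      · have h1 := h (Sum.inr b)
        rw [hf, if_pos (Or.inr rfl)] at h1
        omega
    · have h1 := h (Sum.inr a)
      rw [hf, if_pos (Or.inl rfl)] at h1
      omega
  · rintro ⟨a, b, hab, h⟩
    refine ⟨Sum.inl a, Sum.inl b, fun h => hab (Sum.inl.inj h), ?_⟩
    rintro (p | q)
    · have hp : f (Sum.inl p) = if p = a ∨ p = b then 1 else 2 := h p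
      rw [hp]
      by_cases h1 : p = a ∨ p = b
      · rw [if_pos h1, if_pos]
        rcases h1 with rfl | rfl
        · exact Or.inl rfl
        · exact Or.inr rfl
      · rw [if_neg h1, if_neg]
        rintro (h2 | h2)
        · exact h1 (Or.inl (Sum.inl.inj h2))
        · exact h1 (Or.inr (Sum.inl.inj h2))
    · rw [hf, if_neg]
      rintro (h2 | h2)
      · cases h2
      · cases h2

theorem twoEnds_pushes (w : List (Bool × Bool)) : ∀ W : Outer4,
    (TwoEnds (odeg (W.pushes w)) ↔ TwoEnds (odeg W)) := by
  induction w with
  | nil => intro W; exact Iff.rfl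
  | cons x w ih =>
    intro W
    have h1 : W.pushes (x :: w) = (W.push x.1 x.2).pushes w := rfl
    rw [h1, ih]
    have h2 := twoEnds_sum (P := W.P) (Q := Bool × Bool) (W.push x.1 x.2).dec
      (odeg (W.push x.1 x.2)) (odeg_push_inr W x.1 x.2)
    have h3 : (fun p : W.P => odeg (W.push x.1 x.2) (Sum.inl p)) = odeg W :=
      funext fun p => odeg_push_inl W x.1 x.2 p
    rw [h3] at h2
    exact h2

theorem uKnotoid_fill (W : Outer4) (R : Tangle) : UKnotoid (W.fill R) ↔ TwoEnds (odeg W) := by
  rw [← twoEnds_pushes R.1 W]
  have h : ∀ p, deg (W.fill R).arcs (W.fill R).crossings p = odeg (W.pushes R.1) p :=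
    fun p => deg_close (W.pushes R.1) R.2 p
  unfold UKnotoid TwoEnds
  simp only [h]

/-- **Rational fillings of a box in a knotoid diagram.**  Let `W` be the outside of a box which a diagram of
a (multi-)knotoid meets in four points (planar or not, the endpoints of the knotoid lying anywhere outside
the box).

* If one filling of the box by a rational tangle gives a diagram of a (multi-)knotoid, then all do.
* Either at most two slopes in `ℚ ∪ {∞}` occur among the rational tangles `R` for which `W.fill R`, with
  suitable directions, is a diagram of a knotoid with the normalised bracket `1` of the trivial knotoid,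
  and two different such slopes have odd distance; or `W` is Jones-rational (up to one unit all its rational
  fillings have the brackets of the fillings of a rational tangle), and then all `R` for which `W.fill R` is
  such a diagram have distance one from one slope. -/
theorem result (W : Outer4) :
    (∀ R R' : Tangle, UKnotoid (W.fill R) → UKnotoid (W.fill R')) ∧
    (((∀ R₁ R₂ : Tangle, KTrivial (W.fill R₁) → KTrivial (W.fill R₂) → slope R₁ ≠ slope R₂ →
      Odd (dist R₁ R₂)) ∧
     ∃ s₁ s₂ : OnePoint ℚ, ∀ R : Tangle, KTrivial (W.fill R) → slope R = s₁ ∨ slope R = s₂) ∨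
    (JonesRational W ∧ ∃ R₀ : Tangle, ∀ R : Tangle, KTrivial (W.fill R) → dist R R₀ = 1)) := by
  refine ⟨fun R R' h => (uKnotoid_fill W R').2 ((uKnotoid_fill W R).1 h), ?_⟩
  rcases Fin.main W with ⟨h1, R₀, h2⟩ | ⟨h1, s₁, s₂, h2⟩
  · exact Or.inr ⟨h1, R₀, fun R hR => h2 R hR.jones⟩
  · exact Or.inl ⟨fun R₁ R₂ hR₁ hR₂ hne => h1 R₁ R₂ hR₁.jones hR₂.jones hne,
      s₁, s₂, fun R hR => h2 R hR.jones⟩

end Pool.Agent.Results.MP_79b4ff_gt.RationalFillingsKnotoids
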