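import Pool.Agent.Y463.CD.Fin

/-!
# Braid closures with one closing arc open: codimension m - 1 of the knotoids with short bracket

Diagrams (starting library): `Pool.Agent.H891R2.Jones.Diagram` (`Diagram P`: oriented diagrams with marked
points `P`, planar or not; the number `Diagram.loops` of components of a state counts circles and intervals;
`Diagram.fPoly`: the normalised bracket `(-A^{-3})^{w(D)} ⟨D⟩`), `Pool.Agent.H891R2.MT.Defs` (`UDiagram`:
unoriented diagrams; `Orients D U`: `D` is `U` with directions; `nS w S = ∑ e ∈ S, w e`).  `IsKnotoid D`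
(`Pool.Agent.H832R3.TW.E`): the pieces of `D` form one oriented interval, running from a marked point `tail`
to a different marked point `head`, and (possibly) oriented closed curves; `FSpanLE s D`: the normalised
bracket of `D` is supported in an interval of length at most `4 s`.

`Pool.Agent.H891R2.SI.Defs`:

* `Sites k`: a diagram `O` (planar or not) with `k` open boxes (sites); `O.Connected`: the diagram is
  connected, each site being one piece; `O.crossings`: the crossings outside the sites;
* `O.fill w`, `w ∈ ℤ^k`: the site `e` is filled with two strands twisted around each other, a row of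
  `|w e|` crossings of the kind given by the sign of `w e`;
* `det U`: the absolute value of the bracket `⟨U⟩` at `A = e^{πi/4}`.

`Pool.Agent.Y463.CD.Defs`:

* `Many X n w`: there are `n` pairs `S i`, `S' i` of sets of sites such that the vectors `1_{S i} - 1_{S' i}` are
  linearly independent and `2 |w(S i) - w(S' i)| ≤ X` for all `i`;
* `flat O`: every site is filled with two strands without crossings, `pieces U`: the number of connected
  pieces of the diagram `U` (for a diagram without crossings: the number of its closed curves and intervals).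

The general theorem on twist families used here is the one behind the starting result
`MP_42db45_gt.TwistCodimension` (`Pool.Agent.Y463.CD`); the brackets count circles and intervals, so that the
endpoints of the knotoids may be anywhere.  This file has the family of the braid closures with one closing arc
open.
-/

set_option autoImplicit false

namespace Pool.Agent.Results.MP_79b4ff_gt.TwistCodimensionKnotoids

open Finset Pool.Agent.H891R2.Jones Pool.Agent.H891R2.MT Pool.Agent.H891R2.SI Pool.Agent.Y463.CD
open Pool.Agent.H891R2.ZO (IsPow)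
open Pool.Agent.H832R3.TW (IsKnotoid FSpanLE)

/-- With suitable directions `O.fill w` is a diagram of a (multi-)knotoid whose normalised bracket is
supported in an interval of length at most `4 s` (for instance, for `s = 0`, is equal to `1`). -/
def KSmall {k : ℕ} (O : Sites k) (s : ℕ) (w : Fin k → ℤ) : Prop :=
  ∃ D : Diagram (O.P ⊕ Ribbon.Pt w), Orients D (O.fill w) ∧ IsKnotoid D ∧ FSpanLE s D

/-- The diagram with `k` sites which is obtained from the closure of the braid
`σ_{i 0} ^ {w 0} σ_{i 1} ^ {w 1} ⋯` with `m` strands by leaving one of the closing arcs open, the one at the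
place `x₀`: marked points `(j, x)` on the strand at the place `x` at the level `j = 0, …, k`; the site `j`
lies between the levels `j` and `j + 1` at the places `i j` and `i j + 1`; the other strands run upwards; at
all places except `x₀` the level `k` is joined with the level `0`.  Its endpoints are `(0, x₀)` and
`(k, x₀)`. -/
abbrev openBraid {k : ℕ} (m : ℕ) (i : Fin k → ℕ) (hi : ∀ j, i j + 1 < m) (x₀ : Fin m) : Sites k where
  P := Fin (k + 1) × Fin m
  arcs := (List.finRange k).flatMap (fun j =>
    ((List.finRange m).filter (fun x : Fin m => (x : ℕ) ≠ i j ∧ (x : ℕ) ≠ i j + 1)).map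
      (fun x => ((j.castSucc, x), (j.succ, x)))) ++
    ((List.finRange m).filter (fun x => x ≠ x₀)).map (fun x => ((Fin.last k, x), (0, x)))
  crossings := []
  corner := fun j t l => (if t then j.succ else j.castSucc,
    if l then ⟨i j, Nat.lt_of_succ_lt (hi j)⟩ else ⟨i j + 1, hi j⟩)

variable {k m : ℕ}

theorem open_pieces (i : Fin k → ℕ) (hi : ∀ j, i j + 1 < m) (x₀ : Fin m) :
    m ≤ pieces (flat (openBraid m i hi x₀)) := by
  classical
  let f : Fin (k + 1) × Fin m → Fin m := Prod.snd
  have hf : ∀ p q, Adj (flat (openBraid m i hi x₀)) p q → f p = f q := by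
    intro p q h
    rcases h with h | ⟨x, hx, _⟩
    · change (p, q) ∈ (openBraid m i hi x₀).arcs ++ _ at h
      rw [List.mem_append] at h
      rcases h with h | h
      · rw [List.mem_append] at h
        rcases h with h | h
        · obtain ⟨j, _, he⟩ := List.mem_flatMap.1 h
          obtain ⟨x, _, hx⟩ := List.mem_map.1 he
          rw [Prod.mk.injEq] at hx
          rw [← hx.1, ← hx.2]
        · obtain ⟨x, _, hx⟩ := List.mem_map.1 h
          rw [Prod.mk.injEq] at hx
          rw [← hx.1, ← hx.2]
      · obtain ⟨j, _, he⟩ := List.mem_flatMap.1 h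
        rw [if_pos (Finset.mem_univ j)] at he
        simp only [List.mem_cons, List.not_mem_nil, or_false, Prod.mk.injEq] at he
        rcases he with ⟨rfl, rfl⟩ | ⟨rfl, rfl⟩
        · rfl
        · rfl
    · exact absurd hx List.not_mem_nil
  let F : Quot (Adj (flat (openBraid m i hi x₀))) → Fin m := Quot.lift f hf
  have hF : Function.Surjective F := fun x => ⟨Quot.mk _ (0, x), rfl⟩
  have h1 := Nat.card_le_card_of_surjective F hF
  rwa [Nat.card_eq_fintype_card, Fintype.card_fin] at h1

/-- the strands at the levels are joined -/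
theorem adj_up (i : Fin k → ℕ) (hi : ∀ j, i j + 1 < m) (x₀ : Fin m) (j : Fin k)
    (x : Fin m) : Adj (flat (openBraid m i hi x₀)) (j.castSucc, x) (j.succ, x) := by
  classical
  by_cases h1 : (x : ℕ) = i j
  · have h2 : x = ⟨i j, Nat.lt_of_succ_lt (hi j)⟩ := Fin.ext h1
    rw [h2]
    refine Or.inl (List.mem_append_right _ (List.mem_flatMap.2 ⟨j, List.mem_finRange j, ?_⟩))
    rw [if_pos (Finset.mem_univ j)]
    simp
  · by_cases h3 : (x : ℕ) = i j + 1
    · have h2 : x = ⟨i j + 1, hi j⟩ := Fin.ext h3
      rw [h2]
      refine Or.inl (List.mem_append_right _ (List.mem_flatMap.2 ⟨j, List.mem_finRange j, ?_⟩))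
      rw [if_pos (Finset.mem_univ j)]
      simp
    · refine Or.inl (List.mem_append_left _ (List.mem_append_left _
        (List.mem_flatMap.2 ⟨j, List.mem_finRange j, ?_⟩)))
      refine List.mem_map.2 ⟨x, ?_, rfl⟩
      rw [List.mem_filter]
      exact ⟨List.mem_finRange x, by simp [h1, h3]⟩

theorem pieces_open (i : Fin k → ℕ) (hi : ∀ j, i j + 1 < m) (x₀ : Fin m) :
    pieces (flat (openBraid m i hi x₀)) = m := by
  classical
  refine le_antisymm ?_ (open_pieces i hi x₀)
  have hlev : ∀ (j : Fin (k + 1)) (x : Fin m),
      Quot.mk (Adj (flat (openBraid m i hi x₀))) ((0 : Fin (k + 1)), x) = Quot.mk _ (j, x) := by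
    intro j
    induction j using Fin.induction with
    | zero => intro x; rfl
    | succ j ih =>
      intro x
      rw [ih x]
      exact Quot.sound (adj_up i hi x₀ j _)
  let F : Fin m → Quot (Adj (flat (openBraid m i hi x₀))) := fun x => Quot.mk _ ((0 : Fin (k + 1)), x)
  have hF : Function.Surjective F := by
    intro y
    induction y using Quot.ind with
    | mk y =>
      obtain ⟨j, y⟩ := y
      exact ⟨y, hlev j y⟩
  have h1 := Nat.card_le_card_of_surjective F hF
  rwa [Nat.card_eq_fintype_card (α := Fin m), Fintype.card_fin] at h1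

theorem open_connected (i : Fin k → ℕ) (hi : ∀ j, i j + 1 < m) (x₀ : Fin m)
    (hall : ∀ x, x + 1 < m → ∃ j, i j = x) : (openBraid m i hi x₀).Connected := by
  classical
  intro p q
  set r : (openBraid m i hi x₀).P → (openBraid m i hi x₀).P → Prop := fun p q =>
    (p, q) ∈ (openBraid m i hi x₀).arcs ∨
    (∃ x ∈ (openBraid m i hi x₀).crossings, (p = x.1 ∨ p = x.2.1 ∨ p = x.2.2.1 ∨ p = x.2.2.2) ∧
      (q = x.1 ∨ q = x.2.1 ∨ q = x.2.2.1 ∨ q = x.2.2.2)) ∨
    (∃ (e : Fin k) (t l t' l' : Bool), p = (openBraid m i hi x₀).corner e t l ∧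
      q = (openBraid m i hi x₀).corner e t' l') with hr
  have hsite : ∀ (j : Fin k) (t l t' l' : Bool), Relation.EqvGen r
      ((openBraid m i hi x₀).corner j t l) ((openBraid m i hi x₀).corner j t' l') :=
    fun j t l t' l' => Relation.EqvGen.rel _ _ (Or.inr (Or.inr ⟨j, t, l, t', l', rfl, rfl⟩))
  have hup : ∀ (j : Fin k) (x : Fin m), Relation.EqvGen r (j.castSucc, x) (j.succ, x) := by
    intro j x
    by_cases h1 : (x : ℕ) = i j
    · have h2 : x = ⟨i j, Nat.lt_of_succ_lt (hi j)⟩ := Fin.ext h1
      rw [h2]
      exact hsite j false true true true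
    · by_cases h3 : (x : ℕ) = i j + 1
      · have h2 : x = ⟨i j + 1, hi j⟩ := Fin.ext h3
        rw [h2]
        exact hsite j false false true false
      · refine Relation.EqvGen.rel _ _ (Or.inl ?_)
        refine List.mem_append_left _ (List.mem_flatMap.2 ⟨j, List.mem_finRange j, ?_⟩)
        refine List.mem_map.2 ⟨x, ?_, rfl⟩
        rw [List.mem_filter]
        exact ⟨List.mem_finRange x, by simp [h1, h3]⟩
  have hcol : ∀ (j : Fin (k + 1)) (x : Fin m), Relation.EqvGen r (j, x) (0, x) := by
    intro j
    induction j using Fin.induction with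
    | zero => intro x; exact Relation.EqvGen.refl _
    | succ j ih => intro x; exact Relation.EqvGen.trans _ _ _ (Relation.EqvGen.symm _ _ (hup j x)) (ih x)
  have hrow : ∀ (n : ℕ) (hn : n < m), Relation.EqvGen r ((0 : Fin (k + 1)), (⟨n, hn⟩ : Fin m))
      ((0 : Fin (k + 1)), (⟨0, by omega⟩ : Fin m)) := by
    intro n
    induction n with
    | zero => intro hn; exact Relation.EqvGen.refl _
    | succ n ih =>
      intro hn
      obtain ⟨j, hj⟩ := hall n hn
      subst hj
      have h1 := hsite j false false false true
      exact Relation.EqvGen.trans _ _ _ (Relation.EqvGen.symm _ _ (hcol j.castSucc _))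
        (Relation.EqvGen.trans _ _ _ h1 (Relation.EqvGen.trans _ _ _ (hcol j.castSucc _) (ih _)))
  obtain ⟨j, x⟩ := p
  obtain ⟨j', x'⟩ := q
  exact Relation.EqvGen.trans _ _ _ (hcol j x) (Relation.EqvGen.trans _ _ _ (hrow x x.2)
    (Relation.EqvGen.symm _ _ (Relation.EqvGen.trans _ _ _ (hcol j' x') (hrow x' x'.2))))

theorem KSmall.small {O : Sites k} {s : ℕ} {w : Fin k → ℤ} (h : KSmall O s w) : Small O s w := by
  obtain ⟨D, hD, _, hs⟩ := h
  exact ⟨D, hD, hs⟩

/-- **Codimension for knotoids from braid closures.**  Let `K(w)`, `w ∈ ℤ^k`, `k ≥ 1`, be obtained from the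
closure of the braid `σ_{i 0} ^ {w 0} ⋯ σ_{i (k-1)} ^ {w (k-1)}` on `m` strands, in which every generator occurs,
by leaving one of the closing arcs open, at an arbitrary place `x₀`, and let `s ≥ 0`.

* The diagrams are connected (the sites being single pieces), and without the crossings they consist of exactly
  `m` pieces.
* If `K(w)`, with suitable directions, is a (multi-)knotoid whose normalised bracket has span at most `4 s`, and
  its determinant is not `0`, then there are `m - 1` linearly independent vectors `1_S - 1_{S'}` with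
  `2 |w(S) - w(S')| ≤ 6 k + 2 s`.  At most `(3^k (6 k + 2 s + 1))^(m - 1) (2 N + 1)^(k - (m - 1))` of these `w`
  have `|w e| ≤ N` for all `e`.
* A (multi-)knotoid `K(w)` with normalised bracket `1` has this property for `s = 0`. -/
theorem result :
    ∀ (k m : ℕ), 0 < k → ∀ (i : Fin k → ℕ) (hi : ∀ j, i j + 1 < m), (∀ x, x + 1 < m → ∃ j, i j = x) →
      ∀ x₀ : Fin m,
      (openBraid m i hi x₀).Connected ∧ pieces (flat (openBraid m i hi x₀)) = m ∧
      (∀ (w : Fin k → ℤ) (D : Diagram ((openBraid m i hi x₀).P ⊕ Ribbon.Pt w)),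
        Orients D ((openBraid m i hi x₀).fill w) → IsKnotoid D → D.fPoly = 1 →
          KSmall (openBraid m i hi x₀) 0 w ∧ det ((openBraid m i hi x₀).fill w) ≠ 0) ∧
      ∀ s : ℕ,
        (∀ w, KSmall (openBraid m i hi x₀) s w → det ((openBraid m i hi x₀).fill w) ≠ 0 →
          Many (6 * k + 2 * s) (m - 1) w) ∧
        ∀ N : ℕ, {w : Fin k → ℤ | (∀ e, |w e| ≤ N) ∧ KSmall (openBraid m i hi x₀) s w ∧
          det ((openBraid m i hi x₀).fill w) ≠ 0}.ncard ≤
            (3 ^ k * (6 * k + 2 * s + 1)) ^ (m - 1) * (2 * N + 1) ^ (k - (m - 1)) := by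
  intro k m hk i hi hall x₀
  have hm : 1 < m := lt_of_le_of_lt (Nat.le_add_left 1 _) (hi ⟨0, hk⟩)
  have hc := open_connected i hi x₀ hall
  have hp := open_pieces i hi x₀
  refine ⟨hc, pieces_open i hi x₀, ?_, fun s => ?_⟩
  · intro w D hD hK hf
    refine ⟨⟨D, hD, hK, ?_⟩, (det_of_unit (openBraid m i hi x₀) hk w D hD hf).2⟩
    refine ⟨0, fun j hj => ?_⟩
    rw [hf] at hj
    have h1 := T4b.SIn.one j hj
    constructor
    · linarith [h1.1]
    · push_cast
      linarith [h1.2]
  · have h1 : ∀ w, KSmall (openBraid m i hi x₀) s w → det ((openBraid m i hi x₀).fill w) ≠ 0 →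
        Many (6 * k + 2 * s) (m - 1) w := by
      intro w hw hd
      have h2 := many_of_small (openBraid m i hi x₀) hk hc s (m - 1) (Or.inl (by omega)) w hw.small hd
      have e : 3 * (openBraid m i hi x₀).crossings.length + 6 * k + 2 * s = 6 * k + 2 * s := by
        show 3 * 0 + 6 * k + 2 * s = _
        ring
      rwa [e] at h2
    exact ⟨h1, (count_of_many (6 * k + 2 * s) (m - 1)
      (fun w => KSmall (openBraid m i hi x₀) s w ∧ det ((openBraid m i hi x₀).fill w) ≠ 0)
      (fun w hw => h1 w hw.1 hw.2)).2⟩

end Pool.Agent.Results.MP_79b4ff_gt.TwistCodimensionKnotoids
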